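import Pool.Agent.H23.FK.FIX
import Pool.Agent.H67.FK.S2
import Pool.Agent.H14.FK.ITO
import Pool.Agent.H14.FK.ITS
import Pool.Agent.H48.FK.C3
import Pool.Agent.H14.FK.C4
import Pool.Agent.H21.FK.OV
import Pool.Agent.H85.FK.KEG
import Pool.Agent.H19.FK.C1
import Pool.Agent.H19.FK.C2
import Pool.Agent.H14.FK.KG
import Pool.Agent.H81.FK.TA
import Pool.Agent.H19.FK.TB
import Pool.Agent.H86.FK.TC
import Pool.Agent.H91.FK.IDX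
import Pool.Agent.H14.FK.T1
import Pool.Agent.H48.FK.F2
import Pool.Agent.H50.FK.LC
import Pool.Agent.H67.FK.BS
import Pool.Agent.H14.FK.ODD
import Pool.Agent.H92.FK.BUR
import Pool.Agent.H89.FK.EVEN
import Pool.Agent.H16.FK.T2
import Pool.Agent.H91.FK.T3
import Pool.Agent.H19.FK.NOCE
import Pool.Agent.H14.FK.F1
import Pool.Agent.H34.FK.S4
import Pool.Agent.H70.FK.D1
import Pool.Agent.H24.FK.D2
import Pool.Agent.H24.FK.D3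
import Pool.Agent.H12.FK2.D4
import Pool.Agent.H19.FK.ZI
import Pool.Agent.H90.FK.SW
import Pool.Agent.H77.FK.OVA
import Pool.Agent.H3.FK.Z5A
import Pool.Agent.H90.FK.SYL
import Pool.Agent.H34.FK.D7
import Pool.Agent.H20.FK.Z5E
import Pool.Agent.H60.FK.FUS
import Pool.Agent.H19.FK.LCT
import Pool.Agent.H3.FK.N0
import Pool.Agent.H20.FK.Z5O
import Pool.Agent.H99.FK.LA1
import Pool.Agent.H12.FK2.LA
import Pool.Agent.H33.FK.Z5C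
import Pool.Agent.H99.FK.Z5D
import Pool.Agent.H50.FK2.Z5
import Pool.Agent.H47.FK.Z6A
import Pool.Agent.H60.FK.Z6B
import Pool.Agent.H51.FK.Z7A
import Pool.Agent.H19.FK.SGA
import Pool.Agent.H19.FK.SGR
import Pool.Agent.H47.FK.Z7B
import Pool.Agent.H47.FK.Z9
import Pool.Agent.H13.FK.NC2
import Pool.Agent.H19.FK.FF

set_option autoImplicit false

namespace Pool.Agent.H84.FK

theorem t_fix : T_FIX := Pool.Agent.H23.FK.pf_fix 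

theorem t_s2 : T_S2 := Pool.Agent.H67.FK.pf_s2 

theorem t_ito : T_ITO := Pool.Agent.H14.FK.pf_ito 

theorem t_its : T_ITS := Pool.Agent.H14.FK.pf_its t_ito

theorem t_c3 : T_C3 := Pool.Agent.H48.FKC3.pf_c3 t_its

theorem t_c4 : T_C4 := Pool.Agent.H14.FK.pf_c4 t_its t_c3

theorem t_ov : T_OV := Pool.Agent.H21.FK.pf_ov t_s2 t_c3 t_c4

theorem t_keg : T_KEG := Pool.Agent.H85.FK.pf_keg 

theorem t_c1 : T_C1 := Pool.Agent.H19.FKC1.pf_c1 t_s2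

theorem t_c2 : T_C2 := Pool.Agent.H19.FKC2.pf_c2 t_c1 t_s2

theorem t_kg : T_KG := Pool.Agent.H14.FK.pf_kg t_keg t_c2 t_c3 t_c4

theorem t_ta : T_TA := Pool.Agent.H81.FK.pf_ta t_c2 t_c3 t_c4 t_fix

theorem t_tb : T_TB := Pool.Agent.H19.FKTB.pf_tb t_ito t_kg t_ta t_c4

theorem t_tc : T_TC := Pool.Agent.H86.FK.pf_tc t_c3 t_c4

theorem t_idx : T_IDX := Pool.Agent.H91.FK.IDX.pf_idx 

theorem t_t1 : T_T1 := Pool.Agent.H14.FK.pf_t1 t_kg t_ta t_tb t_tc t_idx t_c1 t_c4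

theorem t_f2 : T_F2 := Pool.Agent.H48.FKF2.pf_f2 t_c2 t_c3 t_c4

theorem t_lc : T_LC := Pool.Agent.H50.FK.pf_lc 

theorem t_bs : T_BS := Pool.Agent.H67.FK.pf_bs 

theorem t_odd : T_ODD := Pool.Agent.H14.FK.pf_odd t_kg t_c4

theorem t_bur : T_BUR := Pool.Agent.H92.FK.pf_bur 

theorem t_even : T_EVEN := Pool.Agent.H89.FK.EVEN.pf_even t_bur t_c4 t_s2

theorem t_t2 : T_T2 := Pool.Agent.H16.FK.pf_t2 t_f2 t_lc t_bs t_fix t_odd t_even t_c3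

theorem t_t3 : T_T3 := Pool.Agent.H91.FK.T3.pf_t3 t_bur t_c4 t_s2

theorem t_noce : T_NOCE := Pool.Agent.H19.FKNOCE.pf_noce t_ov t_t1 t_t2 t_t3

theorem t_f1 : T_F1 := Pool.Agent.H14.FK.pf_f1 t_noce

theorem t_s4 : T_S4 := Pool.Agent.H34.FKS4.pf_s4 

theorem t_d1 : T_D1 := Pool.Agent.H70.FKD1.pf_d1 

theorem t_d2 : T_D2 := Pool.Agent.H24.FKD2.pf_d2 t_d1

theorem t_d3 : T_D3 := Pool.Agent.H24.FKD3.pf_d3 t_f1 t_s4 t_d2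

theorem t_d4 : T_D4 := Pool.Agent.H12.FK2.pf_d4 t_f1 t_d3

theorem t_zi : T_ZI := Pool.Agent.H19.FKZI.pf_zi t_fix t_d4

theorem t_sw : T_SW := Pool.Agent.H90.FKSW.pf_sw 

theorem t_ova : T_OVA := Pool.Agent.H77.FKOVA.pf_ova 

theorem t_z5a : T_Z5A := Pool.Agent.H3.FK.pf_z5a t_ova t_d2 t_d3

theorem t_syl : T_SYL := Pool.Agent.H90.FKSYL.pf_syl t_d3 t_d4

theorem t_d7 : T_D7 := Pool.Agent.H34.FKD7.pf_d7 t_d2

theorem t_z5e : T_Z5E := Pool.Agent.H20.FKZ5E.pf_z5e t_zi t_sw t_syl t_d7 t_d4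

theorem t_fus : T_FUS := Pool.Agent.H60.FKFUS.pf_fus 

theorem t_lct : T_LCT := Pool.Agent.H19.FKLCT.pf_lct 

theorem t_n0 : T_N0 := Pool.Agent.H3.FK.pf_n0 t_ova

theorem t_z5o : T_Z5O := Pool.Agent.H20.FKZ5O.pf_z5o t_fus t_lct t_n0 t_d3 t_d4

theorem t_la1 : T_LA1 := Pool.Agent.H99.FKLA1.pf_la1 

theorem t_la : T_LA := Pool.Agent.H12.FK2.pf_la t_la1

theorem t_z5c : T_Z5C := Pool.Agent.H33.FK.pf_z5c t_la t_d4

theorem t_z5d : T_Z5D := Pool.Agent.H99.FKZ5D.pf_z5d t_bs t_d2 t_d4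

theorem t_z5 : T_Z5 := Pool.Agent.H50.FK2.pf_z5 t_z5a t_z5e t_z5o t_z5c t_z5d

theorem t_z6a : T_Z6A := Pool.Agent.H47.FKZ6A.pf_z6a t_zi t_sw t_z5 t_d3 t_d7

theorem t_z6b : T_Z6B := Pool.Agent.H60.FKZ6B.pf_z6b t_d7

theorem t_z7a : T_Z7A := Pool.Agent.H51.FKZ7A.pf_z7a t_syl t_z5 t_d3 t_d4

theorem t_sga : T_SGA := Pool.Agent.H19.FKSGA.pf_sga t_d3 t_d4

theorem t_sgr : T_SGR := Pool.Agent.H19.FKSGR.pf_sgr 

theorem t_z7b : T_Z7B := Pool.Agent.H47.FKZ7B.pf_z7b t_sga t_sgr t_n0 t_d4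

theorem t_z9 : T_Z9 := Pool.Agent.H47.FKZ9.pf_z9 t_syl t_sga t_sgr t_n0 t_d3 t_d4

theorem t_nc2 : T_NC2 := Pool.Agent.H13.FK.pf_nc2 t_z6a t_z6b t_z7a t_z7b t_z9 t_sw t_syl

theorem t_ff : T_FF := Pool.Agent.H19.FKFF.pf_ff t_nc2

end Pool.Agent.H84.FK
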