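import Mathlib

/-!
# Targets of the board fk_modules (MP_85c4d1_al, finite part)

THEOREM F1: if a finite group `G = A B` with `A` abelian and `B` having an abelian subgroup `B0` of
index at most two, then `G` is soluble.  Every module `XX` proves `pf_xx : T_A → ... → T_XX`
(dependencies of the row are hypotheses), so all modules can be written in parallel.
-/

set_option autoImplicit false
set_option linter.unusedVariables false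

namespace Pool.Agent.H84.FK

/-- `G = A B`, elementwise. -/
def Fac {G : Type} [Group G] (A B : Subgroup G) : Prop := ∀ g : G, ∃ a ∈ A, ∃ b ∈ B, g = a * b

/-- `A` is abelian, elementwise. -/
def Ab {G : Type} [Group G] (A : Subgroup G) : Prop := ∀ x ∈ A, ∀ y ∈ A, x * y = y * x

/-- `B0 ≤ B` has index at most two, elementwise. -/
def Two {G : Type} [Group G] (B B0 : Subgroup G) : Prop :=
  B0 ≤ B ∧ ∀ x ∈ B, ∀ y ∈ B, x ∉ B0 → y ∉ B0 → x * y ∈ B0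

/-- what a counterexample of least order satisfies -/
structure CE (G : Type) [Group G] (A B B0 : Subgroup G) : Prop where
  fin : Finite G
  fac : Fac A B
  abA : Ab A
  abB : Ab B0
  two : Two B B0
  ns : ¬ Group.IsSolvable G
  sub : ∀ L : Subgroup G, L ≠ ⊤ → (∀ g ∈ L, ∃ a ∈ A, a ∈ L ∧ ∃ b ∈ B, b ∈ L ∧ g = a * b) →
    Group.IsSolvable L
  quo : ∀ N : Subgroup G, N.Normal → Group.IsSolvable N → N = ⊥

/-- the unique maximal subgroup containing `A` -/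
structure Ov (G : Type) [Group G] (A M : Subgroup G) : Prop where
  le : A ≤ M
  ne : M ≠ ⊤
  max : ∀ L : Subgroup G, A ≤ L → L ≠ ⊤ → L ≤ M
  conj : ∀ g : G, (∀ a ∈ A, g * a * g⁻¹ ∈ M) → g ∈ M

/-! ### General lemmas -/

def T_ITO : Prop := ∀ (G : Type) [Group G] (A B : Subgroup G), Fac A B → Ab A → Ab B →
    Ab (commutator G)

def T_ITS : Prop := ∀ (G : Type) [Group G] (A B : Subgroup G), Fac A B → Ab A → Ab B →
    Group.IsSolvable G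

def T_S2 : Prop := ∀ (G : Type) [Group G] (B0 : Subgroup G), Ab B0 →
    (∀ x y : G, x ∉ B0 → y ∉ B0 → x * y ∈ B0) → Group.IsSolvable G

def T_BS : Prop := ∀ (G : Type) [Group G] [Finite G] (z : G), z * z = 1 →
    (∀ g : G, ∃ k : ℕ, (z * (g * z * g⁻¹)) ^ (2 ^ k) = 1) →
    ∃ N : Subgroup G, N.Normal ∧ IsPGroup 2 N ∧ z ∈ N

def T_KEG : Prop := ∀ (G : Type) [Group G] [Finite G] (p : ℕ), p.Prime → ∀ X Y : Subgroup G,
    (∀ g : G, ∃ Z : Subgroup G, IsPGroup p Z ∧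
      ∀ z : G, z ∈ Z ↔ ∃ x ∈ X, ∃ y ∈ Y, z = x * (g * y * g⁻¹)) →
    (∀ N : Subgroup G, N.Normal → IsPGroup p N → N = ⊥) →
    ∀ x ∈ X, ∀ y ∈ Y, x * y = y * x

def T_BUR : Prop := ∀ (G : Type) [Group G] [Finite G] (p : ℕ), p.Prime → ∀ P : Subgroup G,
    IsPGroup p P → ¬ p ∣ P.index →
    (∀ g : G, (∀ x ∈ P, g * x * g⁻¹ ∈ P) → ∀ x ∈ P, g * x = x * g) →
    ∃ K : Subgroup G, K.Normal ∧ (∀ x : G, ¬ p ∣ orderOf x → x ∈ K) ∧ (∀ x ∈ P, x ∈ K → x = 1)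

/-- common neighbour lemma -/
def T_LC : Prop := ∀ (G : Type) [Group G] [Finite G] (z : G) (D D0 C : Subgroup G),
    z * z = 1 → z ≠ 1 → z ∈ D0 → Two D D0 → Ab D0 → Ab C →
    (∀ g : G, g * z = z * g ↔ g ∈ D) → Fac D C → (∀ c ∈ C, c ∈ D → c = 1) →
    (∀ x ∈ D0, x ≠ 1 → ∀ g : G, (g * x * g⁻¹ = x ∨ g * x * g⁻¹ = x⁻¹) → g ∈ D) →
    (∀ x ∈ D0, x ≠ 1 → ∀ g : G, g * x * g⁻¹ ∈ D0 → g ∈ D) →
    (∀ c ∈ C, c ≠ 1 → ∀ h : G, (h * z * h⁻¹) * c * (h * z * h⁻¹)⁻¹ ≠ c⁻¹) →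
    (∀ (x : G) (r : ℕ), r.Prime → r ≠ 2 → orderOf x = r →
      ∃ g : G, g * x * g⁻¹ ∈ D0 ∨ g * x * g⁻¹ ∈ C) →
    ∀ g : G, ∃ k : ℕ, (z * (g * z * g⁻¹)) ^ (2 ^ k) = 1

/-- an action of order two on a finite abelian group of even order fixes an involution -/
def T_FIX : Prop := ∀ (G : Type) [Group G] [Finite G] (X : Subgroup G) (t : G), Ab X →
    2 ∣ Nat.card X → (∀ x ∈ X, t * x * t⁻¹ ∈ X) → t * t ∈ X →
    ∃ z ∈ X, z * z = 1 ∧ z ≠ 1 ∧ t * z = z * t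

/-! ### The least counterexample -/

def T_C1 : Prop := ∀ (G : Type) [Group G] (A B B0 : Subgroup G), CE G A B B0 →
    B ≠ ⊤ ∧ ∀ L : Subgroup G, B ≤ L → L ≠ ⊤ → L = B

def T_C2 : Prop := ∀ (G : Type) [Group G] (A B B0 : Subgroup G), CE G A B B0 →
    ∀ X : Subgroup G, X ≠ ⊥ → X ≤ B → (∀ b ∈ B, ∀ x ∈ X, b * x * b⁻¹ ∈ X) →
    ∀ g : G, (∀ x ∈ X, g * x * g⁻¹ ∈ X) → g ∈ B

def T_C3 : Prop := ∀ (G : Type) [Group G] (A B B0 : Subgroup G), CE G A B B0 →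
    ∀ (g a b : G), a ∈ A → b ∈ B → a = g * b * g⁻¹ → a = 1

def T_C4 : Prop := ∀ (G : Type) [Group G] (A B B0 : Subgroup G), CE G A B B0 →
    (∃ t ∈ B, t ∉ B0) ∧ Nat.card B = 2 * Nat.card B0 ∧
      Nat.card G = 2 * Nat.card A * Nat.card B0

def T_KG : Prop := ∀ (G : Type) [Group G] (A B B0 : Subgroup G), CE G A B B0 →
    ∀ p : ℕ, p.Prime → p ≠ 2 → p ∣ Nat.card A → p ∣ Nat.card B0 → False

/-- elements of odd prime order are conjugate into `A` or `B0` -/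
def T_ODD : Prop := ∀ (G : Type) [Group G] (A B B0 : Subgroup G), CE G A B B0 →
    ∀ (x : G) (r : ℕ), r.Prime → r ≠ 2 → orderOf x = r →
      ∃ g : G, g * x * g⁻¹ ∈ A ∨ g * x * g⁻¹ ∈ B0

def T_OV : Prop := ∀ (G : Type) [Group G] (A B B0 : Subgroup G), CE G A B B0 →
    ∃ M : Subgroup G, Ov G A M ∧
      (((∀ x ∈ M, x ∈ B → x ∈ B0) ∧
          ∀ t ∈ B, t ∉ B0 → ∀ x ∈ M, x ∈ B → t * x * t⁻¹ ∈ M → x = 1) ∨
        ∃ t ∈ B, t ∉ B0 ∧ t * t = 1 ∧ t ∈ M ∧ ∀ x ∈ M, x ∈ B → x = 1 ∨ x = t)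

/-- type (iii) -/
def T_T3 : Prop := ∀ (G : Type) [Group G] (A B B0 M : Subgroup G), CE G A B B0 → Ov G A M →
    (∀ x ∈ M, x ∈ B → x = 1) → False

/-- facts in type (ii) -/
structure F2 (G : Type) [Group G] (A B B0 M : Subgroup G) (t : G) : Prop where
  coset : ∀ m ∈ M, m ∈ A ∨ m * t ∈ A
  norm : ∀ x ∈ A, t * x * t⁻¹ ∈ A
  fac : Fac M B0
  inter : ∀ y ∈ B0, y ∈ M → y = 1
  cenA : ∀ x ∈ A, x ≠ 1 → ∀ g : G, (g * x * g⁻¹ = x ∨ g * x * g⁻¹ = x⁻¹) → g ∈ M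
  cenB : ∀ y ∈ B0, y ≠ 1 → ∀ g : G, (g * y * g⁻¹ = y ∨ g * y * g⁻¹ = y⁻¹) → g ∈ B
  tiA : ∀ x ∈ A, x ≠ 1 → ∀ g : G, g * x * g⁻¹ ∈ A → g ∈ M
  tiB : ∀ y ∈ B0, y ≠ 1 → ∀ g : G, g * y * g⁻¹ ∈ B0 → g ∈ B
  mB : ∀ y ∈ B0, y ≠ 1 → ∀ g : G, g * y * g⁻¹ ∉ M

def T_F2 : Prop := ∀ (G : Type) [Group G] (A B B0 M : Subgroup G) (t : G), CE G A B B0 →
    Ov G A M → t ∈ B → t ∉ B0 → t * t = 1 → t ∈ M → (∀ x ∈ M, x ∈ B → x = 1 ∨ x = t) →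
    F2 G A B B0 M t

/-- `|A|` and `|B0|` are not both odd -/
def T_EVEN : Prop := ∀ (G : Type) [Group G] (A B B0 : Subgroup G), CE G A B B0 →
    2 ∣ Nat.card A ∨ 2 ∣ Nat.card B0

/-- type (ii) -/
def T_T2 : Prop := ∀ (G : Type) [Group G] (A B B0 M : Subgroup G) (t : G), CE G A B B0 →
    Ov G A M → t ∈ B → t ∉ B0 → t * t = 1 → t ∈ M → (∀ x ∈ M, x ∈ B → x = 1 ∨ x = t) → False

/-- type (i): `|A|` and `|M ∩ B|` are not both even -/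
def T_TA : Prop := ∀ (G : Type) [Group G] (A B B0 M : Subgroup G), CE G A B B0 → Ov G A M →
    (∀ x ∈ M, x ∈ B → x ∈ B0) →
    (∀ t ∈ B, t ∉ B0 → ∀ x ∈ M, x ∈ B → t * x * t⁻¹ ∈ M → x = 1) →
    2 ∣ Nat.card A → ∀ x ∈ M, x ∈ B → x * x = 1 → x = 1

/-- type (i): `A` is normal in `M` -/
def T_TB : Prop := ∀ (G : Type) [Group G] (A B B0 M : Subgroup G), CE G A B B0 → Ov G A M →
    (∀ x ∈ M, x ∈ B → x ∈ B0) →
    (∀ t ∈ B, t ∉ B0 → ∀ x ∈ M, x ∈ B → t * x * t⁻¹ ∈ M → x = 1) →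
    ∀ m ∈ M, ∀ a ∈ A, m * a * m⁻¹ ∈ A

/-- type (i): counting -/
def T_TC : Prop := ∀ (G : Type) [Group G] (A B B0 M : Subgroup G), CE G A B B0 → Ov G A M →
    (∀ x ∈ M, x ∈ B → x ∈ B0) →
    (∀ t ∈ B, t ∉ B0 → ∀ x ∈ M, x ∈ B → t * x * t⁻¹ ∈ M → x = 1) →
    (∀ m ∈ M, ∀ a ∈ A, m * a * m⁻¹ ∈ A) →
    ∀ (x : G) (r : ℕ), r.Prime → orderOf x = r → ¬ r ∣ Nat.card A → x ∈ M → x ∈ B →
    M.index ≤ 4

/-- a core free subgroup of small index -/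
def T_IDX : Prop := ∀ (G : Type) [Group G] (A B B0 : Subgroup G), CE G A B B0 →
    ∀ L : Subgroup G, L ≠ ⊤ → Group.IsSolvable L → Nat.card G ∣ (L.index).factorial

/-- type (i) -/
def T_T1 : Prop := ∀ (G : Type) [Group G] (A B B0 M : Subgroup G), CE G A B B0 → Ov G A M →
    (∀ x ∈ M, x ∈ B → x ∈ B0) →
    (∀ t ∈ B, t ∉ B0 → ∀ x ∈ M, x ∈ B → t * x * t⁻¹ ∈ M → x = 1) →
    (∃ x ∈ M, x ∈ B ∧ x ≠ 1) → False

/-- there is no least counterexample -/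
def T_NOCE : Prop := ∀ (G : Type) [Group G] (A B B0 : Subgroup G), ¬ CE G A B B0

/-- THEOREM F1 -/
def T_F1 : Prop := ∀ (G : Type) [Group G] [Finite G] (A B B0 : Subgroup G), Fac A B → Ab A →
    Ab B0 → Two B B0 → Group.IsSolvable G

end Pool.Agent.H84.FK
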