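import Pool.Agent.H84.FK.Targets

/-!
# Targets of the board fk2_modules (MP_85c4d1_al, finite part, both factors)

THEOREM F2: if a finite group `G = A B`, where `A` and `B` have abelian subgroups `A0`, `B0` of
index at most two, then `G` is soluble.
-/

set_option autoImplicit false
set_option linter.unusedVariables false

namespace Pool.Agent.H84.FK

/-- what a counterexample of least order to F2 satisfies -/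
structure CE2 (G : Type) [Group G] (A A0 B B0 : Subgroup G) : Prop where
  fin : Finite G
  fac : Fac A B
  abA : Ab A0
  abB : Ab B0
  twoA : Two A A0
  twoB : Two B B0
  ns : ¬ Group.IsSolvable G
  sub : ∀ L : Subgroup G, L ≠ ⊤ → (∀ g ∈ L, ∃ a ∈ A, a ∈ L ∧ ∃ b ∈ B, b ∈ L ∧ g = a * b) →
    Group.IsSolvable L
  quo : ∀ N : Subgroup G, N.Normal → Group.IsSolvable N → N = ⊥
  quot : ∀ (N : Subgroup G) [N.Normal], N ≠ ⊥ → Group.IsSolvable (G ⧸ N)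

/-- types (i) and (iii) of the maximal overgroup `J` of `B` -/
def TyI {G : Type} [Group G] (A A0 J : Subgroup G) : Prop :=
  (∀ x ∈ J, x ∈ A → x ∈ A0) ∧ ∀ s ∈ A, s ∉ A0 → ∀ x ∈ J, x ∈ A → s * x * s⁻¹ ∈ J → x = 1

/-- type (ii) of the maximal overgroup `J` of `B` -/
def TyII {G : Type} [Group G] (A A0 J : Subgroup G) (s : G) : Prop :=
  s ∈ A ∧ s ∉ A0 ∧ s * s = 1 ∧ s ∈ J ∧ ∀ x ∈ J, x ∈ A → x = 1 ∨ x = s

/-- a Sylow 2-subgroup adapted to the factorisation -/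
structure SY (G : Type) [Group G] (A A0 B B0 S : Subgroup G) : Prop where
  pg : IsPGroup 2 S
  odd : ¬ 2 ∣ S.index
  fac : ∀ g ∈ S, ∃ a ∈ A, a ∈ S ∧ ∃ b ∈ B, b ∈ S ∧ g = a * b
  sA : ∃ x ∈ S, x ∈ A ∧ x ∉ A0
  sB : ∃ y ∈ S, y ∈ B ∧ y ∉ B0
  uA : ∀ x ∈ A0, (∃ k : ℕ, x ^ (2 ^ k) = 1) → x ∈ S
  uB : ∀ y ∈ B0, (∃ k : ℕ, y ^ (2 ^ k) = 1) → y ∈ S

/-- the perfect normal subgroup of index two (case `|B0|` odd) -/
structure KS (G : Type) [Group G] (B B0 K : Subgroup G) : Prop where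
  normal : K.Normal
  two : ∀ x y : G, x ∉ K → y ∉ K → x * y ∈ K
  odd : ∀ x : G, ¬ 2 ∣ orderOf x → x ∈ K
  out : ∀ t ∈ B, t ∉ B0 → t ∉ K
  perf : ⁅K, K⁆ = K

/-! ### General lemmas -/

def T_S4 : Prop := ∀ (G : Type) [Group G] [Finite G] (L : Subgroup G), L.normalCore = ⊥ →
    L.index ≤ 4 → Group.IsSolvable G

def T_CL : Prop := ∀ (G : Type) [Group G] [Finite G] (J X W : Subgroup G), X ≤ J → W ≤ J →
    Ab W → (∀ x ∈ X, ∀ w ∈ W, x * w * x⁻¹ ∈ W) → Nat.Coprime (Nat.card X) (Nat.card W) →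
    (∀ w ∈ W, (∀ x ∈ X, x * w = w * x) → w = 1) →
    J.index ≤ 2 * Nat.card {c : G ⧸ J // ∀ x ∈ X, x • c = c} →
    (∀ g : G, g ∉ J → ∀ c ∈ W, (∀ x ∈ X, g⁻¹ * (c⁻¹ * x * c) * g ∈ J) →
      (∀ w ∈ W, g⁻¹ * w * g ∈ J) → False) → J.index ≤ 4

/-- coprime action: `W = [W, X]` -/
def T_COM : Prop := ∀ (G : Type) [Group G] [Finite G] (X W N : Subgroup G), Ab W →
    (∀ x ∈ X, ∀ w ∈ W, x * w * x⁻¹ ∈ W) → Nat.Coprime (Nat.card X) (Nat.card W) →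
    (∀ w ∈ W, (∀ x ∈ X, x * w = w * x) → w = 1) →
    (∀ x ∈ X, ∀ w ∈ W, x * w * x⁻¹ * w⁻¹ ∈ N) → W ≤ N

/-- coprime action on an abelian group: the kernel of the norm map -/
def T_NRM : Prop := ∀ (G : Type) [Group G] [Finite G] (X V : Subgroup G), Ab V →
    (∀ x ∈ X, ∀ v ∈ V, x * v * x⁻¹ ∈ V) → Nat.Coprime (Nat.card X) (Nat.card V) →
    ∃ W : Subgroup G, W ≤ V ∧ (∀ w ∈ W, (∀ x ∈ X, x * w = w * x) → w = 1) ∧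
      (∀ g : G, (∀ v ∈ V, g * v * g⁻¹ ∈ V) →
        (∀ x ∈ X, ∃ y ∈ X, ∀ v ∈ V, (g * x * g⁻¹) * v * (g * x * g⁻¹)⁻¹ = y * v * y⁻¹) →
        ∀ w ∈ W, g * w * g⁻¹ ∈ W) ∧
      (W = ⊥ → ∀ x ∈ X, ∀ v ∈ V, x * v = v * x)

/-- a normal subgroup containing all normal `p`-subgroups contains its centraliser -/
def T_FG : Prop := ∀ (G : Type) [Group G] [Finite G], Group.IsSolvable G →
    ∀ F : Subgroup G, F.Normal →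
    (∀ (r : ℕ), r.Prime → ∀ N : Subgroup G, N.Normal → IsPGroup r N → N ≤ F) →
    Subgroup.centralizer (F : Set G) ≤ F

/-- an abelian subgroup containing all normal `p`-subgroups is normal -/
def T_FA : Prop := ∀ (G : Type) [Group G] [Finite G], Group.IsSolvable G →
    ∀ V : Subgroup G, Ab V →
    (∀ (r : ℕ), r.Prime → ∀ N : Subgroup G, N.Normal → IsPGroup r N → N ≤ V) → V.Normal

/-- the largest normal `p`-subgroup -/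
def T_OP : Prop := ∀ (G : Type) [Group G] [Finite G] (p : ℕ), p.Prime →
    ∃ R : Subgroup G, R.Normal ∧ IsPGroup p R ∧
      (∀ N : Subgroup G, N.Normal → IsPGroup p N → N ≤ R) ∧
      ∀ P : Subgroup G, IsPGroup p P → ¬ p ∣ P.index → R ≤ P

/-- normal complement of an abelian Hall subgroup -/
def T_NCO : Prop := ∀ (G : Type) [Group G] [Finite G] (V : Subgroup G), Ab V →
    Nat.Coprime (Nat.card V) V.index →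
    (∀ (q : ℕ), q.Prime → q ∣ Nat.card V → ∀ Q : Subgroup G, Q ≤ V → IsPGroup q Q →
      ¬ q ∣ Q.index → ∀ g : G, (∀ x ∈ Q, g * x * g⁻¹ ∈ Q) → ∀ x ∈ Q, g * x = x * g) →
    ∃ C : Subgroup G, C.Normal ∧ (∀ x ∈ C, x ∈ V → x = 1) ∧
      ∀ x : G, Nat.Coprime (orderOf x) (Nat.card V) → x ∈ C

def T_PER : Prop := ∀ (G : Type) [Group G] [Finite G] (K P : Subgroup G) (p : ℕ), p.Prime →
    ⁅K, K⁆ = K → P ≤ K → IsPGroup p P → Ab P → ¬ p ∣ P.index →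
    ∀ x ∈ P, (∀ k ∈ K, (∀ y ∈ P, k * y * k⁻¹ ∈ P) → k * x = x * k) → x = 1

/-- same with a Sylow subgroup of `K` -/
def T_PER2 : Prop := ∀ (G : Type) [Group G] [Finite G] (K P : Subgroup G) (p : ℕ), p.Prime →
    ⁅K, K⁆ = K → P ≤ K → IsPGroup p P → Ab P → ¬ p ∣ (P.subgroupOf K).index →
    ∀ x ∈ P, (∀ k ∈ K, (∀ y ∈ P, k * y * k⁻¹ ∈ P) → k * x = x * k) → x = 1

/-- sign of the action on the cosets of a maximal subgroup of a Sylow 2-subgroup -/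
def T_SGN : Prop := ∀ (G : Type) [Group G] [Finite G] (S M : Subgroup G), Two S M → M ≠ S →
    ¬ 2 ∣ S.index → ∃ χ : G →* ℤˣ,
      (∀ v : G, v * v = 1 → (∀ g : G, g⁻¹ * v * g ∈ S → g⁻¹ * v * g ∈ M) → χ v = 1) ∧
      (∀ v : G, v * v = 1 → (∀ g : G, g⁻¹ * v * g ∉ M) → χ v = -1) ∧
      (∀ v : G, ¬ 2 ∣ orderOf v → χ v = 1)

/-- common neighbour lemma, abstract form -/
def T_LCP : Prop := ∀ (G : Type) [Group G] [Finite G] (z : G) (C : Subgroup G),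
    z * z = 1 → z ≠ 1 → Ab C → (∀ g : G, ∃ c ∈ C, ∃ d : G, d * z = z * d ∧ g = d * c) →
    (∀ c ∈ C, c * z = z * c → c = 1) →
    (∀ (x : G) (r : ℕ), r.Prime → r ≠ 2 → orderOf x = r →
      ∀ g : G, (g * z * g⁻¹) * x * (g * z * g⁻¹)⁻¹ = x⁻¹ →
      ∃ h : G, (h * z * h⁻¹) * x = x * (h * z * h⁻¹) ∧
        (∀ g1 : G, (g1 * z * g1⁻¹) * x * (g1 * z * g1⁻¹)⁻¹ = x⁻¹ →
          (g1 * z * g1⁻¹) * (h * z * h⁻¹) = (h * z * h⁻¹) * (g1 * z * g1⁻¹)) ∧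
        ∀ g1 : G, (g1 * z * g1⁻¹) * x = x * (g1 * z * g1⁻¹) → g1 * z * g1⁻¹ = h * z * h⁻¹) →
    ∀ g : G, ∃ k : ℕ, (z * (g * z * g⁻¹)) ^ (2 ^ k) = 1

/-! ### The least counterexample -/

def T_SW : Prop := ∀ (G : Type) [Group G] (A A0 B B0 : Subgroup G), CE2 G A A0 B B0 →
    CE2 G B B0 A A0

def T_D1 : Prop := ∀ (G : Type) [Group G] (A A0 B B0 : Subgroup G), CE2 G A A0 B B0 →
    ∀ N1 N2 : Subgroup G, N1.Normal → N2.Normal → N1 ≠ ⊥ → N2 ≠ ⊥ →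
    (∀ x ∈ N1, ∀ y ∈ N2, x * y = y * x) → False

def T_D2 : Prop := ∀ (G : Type) [Group G] (A A0 B B0 : Subgroup G), CE2 G A A0 B B0 →
    ∀ x y : G, x ≠ 1 → y ≠ 1 → (∀ g : G, (g * x * g⁻¹) * y = y * (g * x * g⁻¹)) → False

def T_IDX2 : Prop := ∀ (G : Type) [Group G] (A A0 B B0 : Subgroup G), CE2 G A A0 B B0 →
    ∀ L : Subgroup G, L ≠ ⊤ → Group.IsSolvable L →
      Nat.card G ∣ (L.index).factorial ∧ 4 < L.index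

def T_D3 : Prop := ∀ (G : Type) [Group G] (A A0 B B0 : Subgroup G), CE2 G A A0 B B0 →
    ∀ (g a b : G), a ∈ A → b ∈ B → a = g * b * g⁻¹ → a = 1

def T_D4 : Prop := ∀ (G : Type) [Group G] (A A0 B B0 : Subgroup G), CE2 G A A0 B B0 →
    (∃ s ∈ A, s ∉ A0) ∧ (∃ t ∈ B, t ∉ B0) ∧ Nat.card A = 2 * Nat.card A0 ∧
      Nat.card B = 2 * Nat.card B0 ∧ Nat.card G = 4 * Nat.card A0 * Nat.card B0 ∧
      ¬ Ab A ∧ ¬ Ab B

def T_D5 : Prop := ∀ (G : Type) [Group G] (A A0 B B0 : Subgroup G), CE2 G A A0 B B0 →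
    ∀ (p : ℕ), p.Prime → ∀ X : Subgroup G, IsPGroup p X → ∀ g : G,
    (∀ a ∈ A0, ∀ x ∈ X, a * x * a⁻¹ ∈ X) →
    (∀ b ∈ B0, ∀ x ∈ X, (g * b * g⁻¹) * x * (g * b * g⁻¹)⁻¹ ∈ X) → X = ⊥

def T_D6 : Prop := ∀ (G : Type) [Group G] (A A0 B B0 : Subgroup G), CE2 G A A0 B B0 →
    ∀ p : ℕ, p.Prime → p ≠ 2 → p ∣ Nat.card A0 → p ∣ Nat.card B0 → False

def T_D7 : Prop := ∀ (G : Type) [Group G] (A A0 B B0 : Subgroup G), CE2 G A A0 B B0 →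
    ∀ z w g : G, z ≠ 1 → w ≠ 1 → (∀ a ∈ A, a * z = z * a) → (∀ b ∈ B, b * w = w * b) →
    (g * z * g⁻¹) * w = w * (g * z * g⁻¹) → False

/-- proper overgroups of `B` -/
def T_OVS : Prop := ∀ (G : Type) [Group G] (A A0 B B0 : Subgroup G), CE2 G A A0 B B0 →
    ∀ L : Subgroup G, B ≤ L → L ≠ ⊤ →
      Group.IsSolvable L ∧ ∀ N : Subgroup G, N.Normal → N ≤ L → N = ⊥

def T_D8 : Prop := ∀ (G : Type) [Group G] (A A0 B B0 : Subgroup G), CE2 G A A0 B B0 →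
    ∃ J : Subgroup G, Ov G B J ∧ (TyI A A0 J ∨ ∃ s : G, TyII A A0 J s)

def T_D9 : Prop := ∀ (G : Type) [Group G] (A A0 B B0 : Subgroup G), CE2 G A A0 B B0 →
    ∀ (q : ℕ), q.Prime → q ≠ 2 → q ∣ Nat.card B0 → ∀ X : Subgroup G, IsPGroup q X →
    (∀ a ∈ A0, ∀ x ∈ X, a * x * a⁻¹ ∈ X) → X = ⊥

def T_OD2 : Prop := ∀ (G : Type) [Group G] (A A0 B B0 : Subgroup G), CE2 G A A0 B B0 →
    ∀ (x : G) (r : ℕ), r.Prime → r ≠ 2 → orderOf x = r →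
      ∃ g : G, (g * x * g⁻¹ ∈ A0 ∧ r ∣ Nat.card A0) ∨ (g * x * g⁻¹ ∈ B0 ∧ r ∣ Nat.card B0)

def T_SYL : Prop := ∀ (G : Type) [Group G] (A A0 B B0 : Subgroup G), CE2 G A A0 B B0 →
    ∃ S : Subgroup G, SY G A A0 B B0 S

/-- facts in type (ii) -/
def T_J2 : Prop := ∀ (G : Type) [Group G] (A A0 B B0 J : Subgroup G) (s : G),
    CE2 G A A0 B B0 → Ov G B J → TyII A A0 J s →
    (∀ j ∈ J, j ∈ B ∨ j * s ∈ B) ∧ (∀ b ∈ B, s * b * s⁻¹ ∈ B) ∧ Fac A0 J ∧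
      (∀ x ∈ A0, ∀ g : G, g * x * g⁻¹ ∈ J → x = 1) ∧ Nat.card J = 4 * Nat.card B0

/-- facts in type (i) -/
def T_HALF : Prop := ∀ (G : Type) [Group G] (A A0 B B0 J : Subgroup G),
    CE2 G A A0 B B0 → Ov G B J → TyI A A0 J →
    (∀ g : G, g ∈ J → ∃ a ∈ A, a ∈ J ∧ ∃ b ∈ B, g = a * b) ∧
    ∀ X : Subgroup G, X ≠ ⊥ → X ≤ J → X ≤ A →
      (∀ g : G, (∀ x ∈ X, g⁻¹ * x * g ∈ J) ↔ ∃ a ∈ A0, ∃ j ∈ J, g = a * j) ∧
      2 * Nat.card {c : G ⧸ J // ∀ x ∈ X, x • c = c} = J.index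

/-! ### Case: both odd -/

def T_E0 : Prop := ∀ (G : Type) [Group G] (A A0 B B0 : Subgroup G), CE2 G A A0 B B0 →
    ¬ 2 ∣ Nat.card A0 → ¬ 2 ∣ Nat.card B0 → False

/-! ### Case: `|B0|` odd, `|A0|` even -/

def T_KK : Prop := ∀ (G : Type) [Group G] (A A0 B B0 : Subgroup G), CE2 G A A0 B B0 →
    ¬ 2 ∣ Nat.card B0 → ∃ K : Subgroup G, KS G B B0 K

def T_K1 : Prop := ∀ (G : Type) [Group G] (A A0 B B0 K J : Subgroup G), CE2 G A A0 B B0 →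
    ¬ 2 ∣ Nat.card B0 → KS G B B0 K → Ov G B J → (∀ x ∈ J, x ∈ A → x = 1) → False

def T_K2A : Prop := ∀ (G : Type) [Group G] (A A0 B B0 J : Subgroup G), CE2 G A A0 B B0 →
    ¬ 2 ∣ Nat.card B0 → Ov G B J → TyI A A0 J → (∃ x ∈ J, x ∈ A ∧ x ≠ 1) →
    (∀ j ∈ J, ∀ y ∈ B0, j * y * j⁻¹ ∈ B0) → False

/-- otherwise a normal 2-subgroup of `J` does not commute with `B0`, but is inside ... -/
def T_K2B : Prop := ∀ (G : Type) [Group G] (A A0 B B0 J : Subgroup G), CE2 G A A0 B B0 →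
    ¬ 2 ∣ Nat.card B0 → Ov G B J → TyI A A0 J → (∃ x ∈ J, x ∈ A ∧ x ≠ 1) →
    ¬ (∀ j ∈ J, ∀ y ∈ B0, j * y * j⁻¹ ∈ B0) →
    ∃ R : Subgroup G, R ≤ J ∧ R ≠ ⊥ ∧ (∀ j ∈ J, ∀ x ∈ R, j * x * j⁻¹ ∈ R) ∧
      (∀ x ∈ R, x * x = 1) ∧ (∃ x ∈ R, x ∉ A) ∧ (∀ x ∈ R, ∀ y ∈ R, x ∉ A → y ∉ A → x * y ∈ A) ∧
      ∃ b ∈ B0, ∃ x ∈ R, x ∈ A ∧ b * x * b⁻¹ ∉ A

def T_K2C : Prop := ∀ (G : Type) [Group G] (A A0 B B0 J : Subgroup G), CE2 G A A0 B B0 →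
    ¬ 2 ∣ Nat.card B0 → Ov G B J → TyI A A0 J → ∀ R : Subgroup G, R ≤ J →
    (∀ j ∈ J, ∀ x ∈ R, j * x * j⁻¹ ∈ R) →
      (∀ x ∈ R, x * x = 1) → (∃ x ∈ R, x ∉ A) → (∀ x ∈ R, ∀ y ∈ R, x ∉ A → y ∉ A → x * y ∈ A) →
      (∃ b ∈ B0, ∃ x ∈ R, x ∈ A ∧ b * x * b⁻¹ ∉ A) → False

/-- type (ii) for `J`: an involution of `K ∩ ⟨s, t⟩` inverts `B0` -/
def T_K3 : Prop := ∀ (G : Type) [Group G] (A A0 B B0 K J : Subgroup G) (s : G),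
    CE2 G A A0 B B0 → ¬ 2 ∣ Nat.card B0 → KS G B B0 K → Ov G B J → TyII A A0 J s →
    (∀ g : G, (∀ y ∈ B0, g * y * g⁻¹ ∈ B0) ↔ g ∈ J) ∧
    ∃ t ∈ B, t ∉ B0 ∧ t * t = 1 ∧ s * t = t * s ∧
      ∃ x ∈ K, (x = s ∨ x = s * t) ∧ ∀ y ∈ B0, x * y * x⁻¹ = y⁻¹

/-- type (i) for `H`: `s` inverts `B0` -/
def T_K4Z : Prop := ∀ (G : Type) [Group G] (A A0 B B0 K J H : Subgroup G) (s : G),
    CE2 G A A0 B B0 → ¬ 2 ∣ Nat.card B0 → KS G B B0 K → Ov G B J → TyII A A0 J s →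
    Ov G A H → TyI B B0 H → (∃ y ∈ H, y ∈ B ∧ y ≠ 1) →
    (∀ y ∈ B0, s * y * s⁻¹ = y⁻¹) ∧
      ∀ j ∈ J, (∀ y ∈ H, y ∈ B → j * y = y * j) → j ∈ B0

def T_K4A : Prop := ∀ (G : Type) [Group G] (A A0 B B0 H : Subgroup G) (s : G),
    CE2 G A A0 B B0 → ¬ 2 ∣ Nat.card B0 → s ∈ A → s ∉ A0 → (∀ y ∈ B0, s * y * s⁻¹ = y⁻¹) →
    Ov G A H → TyI B B0 H → (∃ y ∈ H, y ∈ B ∧ y ≠ 1) →
    (∀ h ∈ H, ∀ a ∈ A0, h * a * h⁻¹ ∈ A0) → False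

def T_K4B : Prop := ∀ (G : Type) [Group G] (A A0 B B0 K H : Subgroup G),
    CE2 G A A0 B B0 → ¬ 2 ∣ Nat.card B0 → KS G B B0 K →
    Ov G A H → TyI B B0 H → (∃ y ∈ H, y ∈ B ∧ y ≠ 1) →
    ¬ (∀ h ∈ H, ∀ a ∈ A0, h * a * h⁻¹ ∈ A0) → ∀ a ∈ A, ∃ k : ℕ, a ^ (2 ^ k) = 1

def T_K4C : Prop := ∀ (G : Type) [Group G] (A A0 B B0 J H : Subgroup G) (s : G),
    CE2 G A A0 B B0 → ¬ 2 ∣ Nat.card B0 → Ov G B J → TyII A A0 J s →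
    (∀ g : G, (∀ y ∈ B0, g * y * g⁻¹ ∈ B0) ↔ g ∈ J) →
    (∀ j ∈ J, (∀ y ∈ H, y ∈ B → j * y = y * j) → j ∈ B0) →
    Ov G A H → TyI B B0 H → (∃ y ∈ H, y ∈ B ∧ y ≠ 1) → (∀ a ∈ A, ∃ k : ℕ, a ^ (2 ^ k) = 1) →
    ∀ a ∈ A, (∀ y ∈ H, y ∈ B → a * y = y * a) → a = 1

def T_K4D : Prop := ∀ (G : Type) [Group G] (A A0 B B0 H : Subgroup G),
    CE2 G A A0 B B0 → ¬ 2 ∣ Nat.card B0 →
    Ov G A H → TyI B B0 H → (∃ y ∈ H, y ∈ B ∧ y ≠ 1) → (∀ a ∈ A, ∃ k : ℕ, a ^ (2 ^ k) = 1) →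
    (∀ a ∈ A, (∀ y ∈ H, y ∈ B → a * y = y * a) → a = 1) →
    ¬ (∀ h ∈ H, ∀ a ∈ A0, h * a * h⁻¹ ∈ A0) → False

/-- `H = A` is impossible -/
def T_K5 : Prop := ∀ (G : Type) [Group G] (A A0 B B0 K H : Subgroup G),
    CE2 G A A0 B B0 → 2 ∣ Nat.card A0 → ¬ 2 ∣ Nat.card B0 → KS G B B0 K → Ov G A H →
    (∀ y ∈ H, y ∈ B → y = 1) → False

def T_K6A : Prop := ∀ (G : Type) [Group G] (A A0 B B0 K J H : Subgroup G) (s t : G),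
    CE2 G A A0 B B0 → ¬ 2 ∣ Nat.card B0 → KS G B B0 K → Ov G B J → TyII A A0 J s →
    Ov G A H → TyII B B0 H t → ∀ y ∈ B0, y ≠ 1 → ∀ g : G, g * y = y * g → g ∈ J

def T_K6B : Prop := ∀ (G : Type) [Group G] (A A0 B B0 K J H : Subgroup G) (s t : G),
    CE2 G A A0 B B0 → 2 ∣ Nat.card A0 → ¬ 2 ∣ Nat.card B0 → KS G B B0 K → Ov G B J →
    TyII A A0 J s → Ov G A H → TyII B B0 H t →
    ∀ (x : G) (p : ℕ), x ∈ A0 → p.Prime → p ≠ 2 → orderOf x = p →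
      ∀ g : G, g * x = x * g → g ∈ H

def T_K6 : Prop := ∀ (G : Type) [Group G] (A A0 B B0 K J H : Subgroup G) (s t : G),
    CE2 G A A0 B B0 → 2 ∣ Nat.card A0 → ¬ 2 ∣ Nat.card B0 → KS G B B0 K → Ov G B J →
    TyII A A0 J s → Ov G A H → TyII B B0 H t → False

def T_E1 : Prop := ∀ (G : Type) [Group G] (A A0 B B0 : Subgroup G), CE2 G A A0 B B0 →
    2 ∣ Nat.card A0 → ¬ 2 ∣ Nat.card B0 → False

/-! ### Case: both even -/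

def T_EB : Prop := ∀ (G : Type) [Group G] (A A0 B B0 H J : Subgroup G), CE2 G A A0 B B0 →
    2 ∣ Nat.card A0 → 2 ∣ Nat.card B0 → Ov G A H → TyI B B0 H → Ov G B J → TyI A A0 J → False

def T_EC : Prop := ∀ (G : Type) [Group G] (A A0 B B0 H J : Subgroup G) (t : G),
    CE2 G A A0 B B0 → 2 ∣ Nat.card A0 → 2 ∣ Nat.card B0 → Ov G A H → TyII B B0 H t →
    Ov G B J → TyI A A0 J → False

/-- the structure of `S` when both types are (ii) -/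
def Str (G : Type) [Group G] (A A0 B B0 S : Subgroup G) (s t : G) : Prop :=
  SY G A A0 B B0 S ∧ s ∈ S ∧ t ∈ S ∧ (∀ g ∈ S, g * s = s * g) ∧ (∀ g ∈ S, g * t = t * g) ∧
    (∀ x ∈ S, x ∈ A → x * x = 1) ∧ (∀ y ∈ S, y ∈ B → y * y = 1) ∧
    (∀ x ∈ S, x ∈ A0 → ∀ a ∈ A, a * x = x * a) ∧ (∀ y ∈ S, y ∈ B0 → ∀ b ∈ B, b * y = y * b) ∧
    Nat.card (S ⊓ A0 : Subgroup G) ≤ 4 ∧ Nat.card (S ⊓ B0 : Subgroup G) ≤ 4

def T_ED1 : Prop := ∀ (G : Type) [Group G] (A A0 B B0 H J S : Subgroup G) (s t : G),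
    CE2 G A A0 B B0 → 2 ∣ Nat.card A0 → 2 ∣ Nat.card B0 → Ov G A H → TyII B B0 H t →
    Ov G B J → TyII A A0 J s → SY G A A0 B B0 S → s ∈ S → (∀ g ∈ S, g * s = s * g) →
    Str G A A0 B B0 S s t

def T_ED : Prop := ∀ (G : Type) [Group G] (A A0 B B0 H J : Subgroup G) (s t : G),
    CE2 G A A0 B B0 → 2 ∣ Nat.card A0 → 2 ∣ Nat.card B0 → Ov G A H → TyII B B0 H t →
    Ov G B J → TyII A A0 J s → ∃ S : Subgroup G, Str G A A0 B B0 S s t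

/-- `S ∩ J` is normal in `S` -/
def T_EN : Prop := ∀ (G : Type) [Group G] (A A0 B B0 H J S : Subgroup G) (s t : G),
    CE2 G A A0 B B0 → Ov G A H → TyII B B0 H t → Ov G B J → TyII A A0 J s →
    Str G A A0 B B0 S s t → Nat.card (S ⊓ B0 : Subgroup G) = 4 →
    ∀ g ∈ S, ∀ x ∈ S, x ∈ J → g * x * g⁻¹ ∈ J

def T_EE : Prop := ∀ (G : Type) [Group G] (A A0 B B0 H J S : Subgroup G) (s t : G),
    CE2 G A A0 B B0 → Ov G A H → TyII B B0 H t → Ov G B J → TyII A A0 J s →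
    Str G A A0 B B0 S s t → 2 ∣ Nat.card A0 → Nat.card (S ⊓ B0 : Subgroup G) = 4 → False

def T_EF : Prop := ∀ (G : Type) [Group G] (A A0 B B0 H J S : Subgroup G) (s t : G),
    CE2 G A A0 B B0 → Ov G A H → TyII B B0 H t → Ov G B J → TyII A A0 J s →
    Str G A A0 B B0 S s t → Nat.card (S ⊓ A0 : Subgroup G) = 2 →
    Nat.card (S ⊓ B0 : Subgroup G) = 2 → False

def T_E2 : Prop := ∀ (G : Type) [Group G] (A A0 B B0 : Subgroup G), CE2 G A A0 B B0 →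
    2 ∣ Nat.card A0 → 2 ∣ Nat.card B0 → False

/-! ### Conclusion -/

def T_NC2 : Prop := ∀ (G : Type) [Group G] (A A0 B B0 : Subgroup G), ¬ CE2 G A A0 B B0

/-- THEOREM F2 -/
def T_FF : Prop := ∀ (G : Type) [Group G] [Finite G] (A A0 B B0 : Subgroup G), Fac A B →
    Ab A0 → Ab B0 → Two A A0 → Two B B0 → Group.IsSolvable G

end Pool.Agent.H84.FK
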