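import Pool.Agent.H84.FK.Targets2

/-!
# Targets of the board fk2_modules, second version (MP_85c4d1_al, finite part, both factors)

Proof of THEOREM F2 following note 1219 (helper46).
-/

set_option autoImplicit false
set_option linter.unusedVariables false

namespace Pool.Agent.H84.FK

/-! ### General lemmas -/

/-- hypotheses of Lemma A -/
structure LAH (G : Type) [Group G] (M R U : Subgroup G) (z : G) : Prop where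
  fin : Finite G
  inv : z * z = 1
  cen : ∀ g : G, g * z = z * g ↔ g ∈ M
  fac : Fac M R
  abR : Ab R
  int : ∀ x ∈ M, x ∈ R → x = 1
  odd : ∀ x : G, x ∈ U ↔ (x ∈ M ∧ ¬ 2 ∣ orderOf x)
  abU : Ab U
  sq : ∀ m ∈ M, ∀ x ∈ U, (m * m) * x = x * (m * m)
  nor : ∀ X : Subgroup G, X ≤ U → X ≠ ⊥ → (∀ m ∈ M, ∀ x ∈ X, m * x * m⁻¹ ∈ X) →
    ∀ g : G, (∀ x ∈ X, g * x * g⁻¹ ∈ X) → g ∈ M

def T_LA1 : Prop := ∀ (G : Type) [Group G] (M R U : Subgroup G) (z : G), LAH G M R U z →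
    ∀ v ∈ R, v ≠ 1 → v⁻¹ * z * v ∈ M →
    ∀ x ∈ U, (v⁻¹ * z * v) * x * (v⁻¹ * z * v)⁻¹ = x⁻¹

/-- Lemma A (four cycle trick) -/
def T_LA : Prop := ∀ (G : Type) [Group G] (M R U : Subgroup G) (z : G), LAH G M R U z →
    (∃ v ∈ R, v ≠ 1 ∧ v⁻¹ * z * v ∈ M) → U = ⊥

/-- fusion in the centraliser of an isolated involution -/
def T_FUS : Prop := ∀ (G : Type) [Group G] [Finite G] (M : Subgroup G) (z : G), z * z = 1 →
    (∀ g : G, g * z = z * g ↔ g ∈ M) → (∀ g : G, g⁻¹ * z * g ∈ M → g⁻¹ * z * g = z) →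
    ∀ y ∈ M, ∀ g : G, g⁻¹ * y * g ∈ M → ∃ m ∈ M, g⁻¹ * y * g = m⁻¹ * y * m

/-- Lemma C (transfer) -/
def T_LCT : Prop := ∀ (G : Type) [Group G] [Finite G] (M M1 : Subgroup G),
    (∀ y ∈ M, ∀ g : G, g⁻¹ * y * g ∈ M → ∃ m ∈ M, g⁻¹ * y * g = m⁻¹ * y * m) →
    ¬ 2 ∣ M.index → Two M M1 → M1 ≠ M →
    ∃ K : Subgroup G, K.Normal ∧ K ≠ ⊤ ∧ M1 ≤ K

/-- sign of the regular representation -/
def T_SGR : Prop := ∀ (G : Type) [Group G] [Finite G] (K : Subgroup G), K.Normal → ∀ c ∈ K,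
    2 ∣ orderOf c → ¬ 2 ∣ (Nat.card K / orderOf c) →
    ∃ K2 : Subgroup G, K2.Normal ∧ K2 ≤ K ∧ c ∉ K2 ∧
      (∀ x ∈ K, ∀ y ∈ K, x ∉ K2 → y ∉ K2 → x * y ∈ K2) ∧ Nat.card K = 2 * Nat.card K2

/-! ### The least counterexample -/

def T_OVA : Prop := ∀ (G : Type) [Group G] (A A0 B B0 : Subgroup G), CE2 G A A0 B B0 →
    ∀ L : Subgroup G, A ≤ L → L ≠ ⊤ → Group.IsSolvable L ∧
      ∀ X : Subgroup G, X ≤ L → X ≤ B → (∀ b ∈ B, ∀ x ∈ X, b * x * b⁻¹ ∈ X) → X = ⊥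

def T_N0 : Prop := ∀ (G : Type) [Group G] (A A0 B B0 : Subgroup G), CE2 G A A0 B B0 →
    ∀ W : Subgroup G, W.Normal → W ≠ ⊥ → Fac A W ∧
      Nat.card A * Nat.card W = Nat.card G * Nat.card (A ⊓ W : Subgroup G)

/-- a central involution of `A` -/
def T_ZI : Prop := ∀ (G : Type) [Group G] (A A0 B B0 : Subgroup G), CE2 G A A0 B B0 →
    2 ∣ Nat.card A0 → ∃ u ∈ A0, u * u = 1 ∧ u ≠ 1 ∧ ∀ a ∈ A, a * u = u * a

/-- the sign character of the action on the cosets of `A` -/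
def T_SGA : Prop := ∀ (G : Type) [Group G] (A A0 B B0 : Subgroup G), CE2 G A A0 B B0 →
    ¬ 2 ∣ Nat.card B0 → ∃ K : Subgroup G, K.Normal ∧ (∀ x y : G, x ∉ K → y ∉ K → x * y ∈ K) ∧
      (∀ x : G, ¬ 2 ∣ orderOf x → x ∈ K) ∧ (∀ s ∈ B, s ∉ B0 → s * s = 1 → s ∉ K) ∧
      Nat.card G = 2 * Nat.card K

/-! ### (5): no element of `B \ B0` commutes with a central involution of `A` -/

/-- the structure forced by `d ∈ B \ B0` commuting with the central involution `u` of `A` -/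
structure Z5S (G : Type) [Group G] (A A0 B B0 M : Subgroup G) (u d : G) : Prop where
  uA : u ∈ A
  cu : ∀ a ∈ A, a * u = u * a
  u2 : u * u = 1
  une : u ≠ 1
  dB : d ∈ B
  dnB : d ∉ B0
  du : d * u = u * d
  d2 : d * d = 1
  cen : ∀ g : G, g * u = u * g ↔ g ∈ M
  mem : ∀ g : G, g ∈ M ↔ (g ∈ A ∨ g * d ∈ A)
  top : M ≠ ⊤
  max : ∀ L : Subgroup G, M ≤ L → L ≠ ⊤ → L = M
  fac : Fac M B0
  int : ∀ x ∈ M, x ∈ B0 → x = 1
  nrm : ∀ a ∈ A, d * a * d⁻¹ ∈ A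
  nor : ∀ X : Subgroup G, X ≤ M → X ≠ ⊥ → (∀ m ∈ M, ∀ x ∈ X, m * x * m⁻¹ ∈ X) →
    ∀ g : G, (∀ x ∈ X, g * x * g⁻¹ ∈ X) → g ∈ M

def T_Z5A : Prop := ∀ (G : Type) [Group G] (A A0 B B0 : Subgroup G), CE2 G A A0 B B0 →
    ∀ u d : G, u ∈ A → (∀ a ∈ A, a * u = u * a) → u * u = 1 → u ≠ 1 → d ∈ B → d ∉ B0 →
    d * u = u * d → ∃ M : Subgroup G, Z5S G A A0 B B0 M u d

def T_Z5E : Prop := ∀ (G : Type) [Group G] (A A0 B B0 M : Subgroup G) (u d : G),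
    CE2 G A A0 B B0 → Z5S G A A0 B B0 M u d → 2 ∣ Nat.card B0 →
    ∃ v ∈ B0, v ≠ 1 ∧ v⁻¹ * u * v ∈ M

def T_Z5O : Prop := ∀ (G : Type) [Group G] (A A0 B B0 M : Subgroup G) (u d : G),
    CE2 G A A0 B B0 → Z5S G A A0 B B0 M u d → ¬ 2 ∣ Nat.card B0 →
    ∃ v ∈ B0, v ≠ 1 ∧ v⁻¹ * u * v ∈ M

def T_Z5C : Prop := ∀ (G : Type) [Group G] (A A0 B B0 M : Subgroup G) (u d : G),
    CE2 G A A0 B B0 → Z5S G A A0 B B0 M u d → (∃ v ∈ B0, v ≠ 1 ∧ v⁻¹ * u * v ∈ M) →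
    ∀ x ∈ M, ¬ 2 ∣ orderOf x → x = 1

def T_Z5D : Prop := ∀ (G : Type) [Group G] (A A0 B B0 M : Subgroup G) (u d : G),
    CE2 G A A0 B B0 → Z5S G A A0 B B0 M u d → (∀ x ∈ M, ¬ 2 ∣ orderOf x → x = 1) → False

def T_Z5 : Prop := ∀ (G : Type) [Group G] (A A0 B B0 : Subgroup G), CE2 G A A0 B B0 →
    ∀ u d : G, u ∈ A → (∀ a ∈ A, a * u = u * a) → u * u = 1 → u ≠ 1 → d ∈ B →
    d * u = u * d → d ∈ B0

/-! ### (6): both even -/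

structure Z6S (G : Type) [Group G] (A A0 B B0 S : Subgroup G) (u z e d : G) : Prop where
  uA0 : u ∈ A0
  cu : ∀ a ∈ A, a * u = u * a
  une : u ≠ 1
  zB0 : z ∈ B0
  cz : ∀ b ∈ B, b * z = z * b
  zne : z ≠ 1
  eA0 : e ∈ A0
  eS : e ∈ S
  e2 : e * e = 1
  ene : e ≠ 1
  dB0 : d ∈ B0
  dS : d ∈ S
  d2 : d * d = 1
  dne : d ≠ 1
  ed : e * d = d * e
  cw : ∀ g ∈ S, g * (e * d) = (e * d) * g
  ez : e * z = z * e
  du : d * u = u * d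

def T_Z6A : Prop := ∀ (G : Type) [Group G] (A A0 B B0 S : Subgroup G), CE2 G A A0 B B0 →
    2 ∣ Nat.card A0 → 2 ∣ Nat.card B0 → SY G A A0 B B0 S → ∃ u z e d : G,
      Z6S G A A0 B B0 S u z e d

def T_Z6B : Prop := ∀ (G : Type) [Group G] (A A0 B B0 S : Subgroup G) (u z e d : G),
    CE2 G A A0 B B0 → SY G A A0 B B0 S → Z6S G A A0 B B0 S u z e d → False

/-! ### (7): `|A0|` even, `|B0|` odd -/

structure Z7S (G : Type) [Group G] (A A0 B B0 S : Subgroup G) (s u z : G) : Prop where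
  sy : SY G A A0 B B0 S
  sS : s ∈ S
  sB : s ∈ B
  snB : s ∉ B0
  s2 : s * s = 1
  uS : u ∈ S
  uA0 : u ∈ A0
  u2 : u * u = 1
  une : u ≠ 1
  zS : z ∈ S
  zA : z ∈ A
  znA0 : z ∉ A0
  z2 : z * z = 1
  mem : ∀ x ∈ S, x ∈ A → x = 1 ∨ x = u ∨ x = z ∨ x = u * z
  uz : u * z = z * u
  su : s * u * s⁻¹ = u * z
  sz : s * z = z * s
  card : Nat.card S = 8
  cardA : ∃ k : ℕ, ¬ 2 ∣ k ∧ Nat.card A = 4 * k

def T_Z7A : Prop := ∀ (G : Type) [Group G] (A A0 B B0 : Subgroup G), CE2 G A A0 B B0 →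
    2 ∣ Nat.card A0 → ¬ 2 ∣ Nat.card B0 → ∃ (S : Subgroup G) (s u z : G),
      Z7S G A A0 B B0 S s u z

def T_Z7B : Prop := ∀ (G : Type) [Group G] (A A0 B B0 S : Subgroup G) (s u z : G),
    CE2 G A A0 B B0 → ¬ 2 ∣ Nat.card B0 → Z7S G A A0 B B0 S s u z → False

/-! ### (9): both odd -/

def T_Z9 : Prop := ∀ (G : Type) [Group G] (A A0 B B0 : Subgroup G), CE2 G A A0 B B0 →
    ¬ 2 ∣ Nat.card A0 → ¬ 2 ∣ Nat.card B0 → False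

end Pool.Agent.H84.FK
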